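import Pool.Agent.Helper35.MS.StGB
import Pool.Agent.Helper35.MS.StJ

/-!
# Project MS, module GKD (MP_925021_gt): the total curvature is constant along a family of
immersions of a closed surface
-/

set_option autoImplicit false

namespace Helper89.MS

open Helper35.MS Helper35.PI Helper35.PI2 Helper32.CL
open scoped ContDiff Manifold Topology ENNReal BigOperators
open MeasureTheory Set Filter

variable {n N : ℕ} {M : Type} [TopologicalSpace M] [ChartedSpace (EE n) M]

/-- continuity of a function on space time in a chart, times the density -/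
private theorem cst_chart [IsManifold (𝓡 n) ∞ M] (hSG : StSGJ) {J : Set ℝ} {F : M → ℝ → EE N}
    (hF : IsImmJ (n := n) J F) {g : M → ℝ → ℝ} (hg : CSTJ J g) (p : M) :
    ContinuousOn (fun z : EE n × ℝ => g ((chartAt (EE n) p).symm z.1) z.2 *
      sgm (loc (n := n) F p z.2) z.1) ((chartAt (EE n) p).target ×ˢ J) := by
  refine ContinuousOn.mul ?_ (hSG n N M J F hF p).2
  have hmap : ContinuousOn (fun z : EE n × ℝ => (((chartAt (EE n) p).symm z.1, z.2) : M × ℝ))
      ((chartAt (EE n) p).target ×ˢ J) := by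
    refine ContinuousOn.prodMk ?_ continuousOn_snd
    exact (chartAt (EE n) p).continuousOn_symm.comp continuousOn_fst fun z hz => hz.1
  have hmt : MapsTo (fun z : EE n × ℝ => (((chartAt (EE n) p).symm z.1, z.2) : M × ℝ))
      ((chartAt (EE n) p).target ×ˢ J) (univ ×ˢ J) := fun z hz => ⟨mem_univ _, hz.2⟩
  exact hg.comp hmap hmt

private theorem cst_slice {J : Set ℝ} {g : M → ℝ → ℝ} (hg : CSTJ J g) {t : ℝ} (ht : t ∈ J) :
    Continuous (fun q => g q t) :=
  hg.comp_continuous (f := fun q : M => (q, t)) (by fun_prop) (fun q => ⟨mem_univ _, ht⟩)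

/-- the cut off function in the chart -/
private theorem chi_facts {c : ℕ → M} {χ : ℕ → M → ℝ} (hP : PU n c χ) (i : ℕ) :
    IsCompact ((chartAt (EE n) (c i)) '' tsupport (χ i)) ∧
    (chartAt (EE n) (c i)) '' tsupport (χ i) ⊆ (chartAt (EE n) (c i)).target ∧
    ContinuousOn (fun y => χ i ((chartAt (EE n) (c i)).symm y)) (chartAt (EE n) (c i)).target ∧
    ∀ y ∈ (chartAt (EE n) (c i)).target, y ∉ (chartAt (EE n) (c i)) '' tsupport (χ i) →
      χ i ((chartAt (EE n) (c i)).symm y) = 0 := by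
  refine ⟨(hP.cpt i).image_of_continuousOn
    ((chartAt (EE n) (c i)).continuousOn.mono (hP.sub i)), ?_, ?_, ?_⟩
  · rintro _ ⟨q, hq, rfl⟩
    exact (chartAt (EE n) (c i)).map_source (hP.sub i hq)
  · exact (hP.smooth i).continuous.comp_continuousOn (chartAt (EE n) (c i)).continuousOn_symm
  · intro y hy hyK
    by_contra hne
    apply hyK
    refine ⟨(chartAt (EE n) (c i)).symm y, subset_tsupport _ hne, ?_⟩
    exact (chartAt (EE n) (c i)).right_inv hy

/-- the integral of a chart -/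
private noncomputable def Ii (F : M → ℝ → EE N) (c : ℕ → M) (χ : ℕ → M → ℝ) (i : ℕ) (g : M → ℝ → ℝ)
    (r : ℝ) : ℝ :=
  ∫ y in (chartAt (EE n) (c i)).target, χ i ((chartAt (EE n) (c i)).symm y) *
    (g ((chartAt (EE n) (c i)).symm y) r * sgm (loc (n := n) F (c i) r) y)

private theorem exists_Icc {J : Set ℝ} (hJ : IsOpen J) {t : ℝ} (ht : t ∈ J) :
    ∃ δ : ℝ, 0 < δ ∧ Icc (t - δ) (t + δ) ⊆ J := by
  obtain ⟨ε, hε, h⟩ := Metric.isOpen_iff.1 hJ t ht
  refine ⟨ε / 2, by linarith, fun r hr => h ?_⟩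
  rw [Real.ball_eq_Ioo]
  exact ⟨by linarith [hr.1], by linarith [hr.2]⟩

private theorem Ii_cont (hFU : StFU) {J : Set ℝ} {F : M → ℝ → EE N}
    (hJ : IsOpen J) {c : ℕ → M} {χ : ℕ → M → ℝ} (hP : PU n c χ) {g : M → ℝ → ℝ} (i : ℕ)
    (hg : ContinuousOn (fun z : EE n × ℝ => g ((chartAt (EE n) (c i)).symm z.1) z.2 *
      sgm (loc (n := n) F (c i) z.2) z.1) ((chartAt (EE n) (c i)).target ×ˢ J)) :
    ContinuousOn (Ii (n := n) F c χ i g) J := by
  intro t ht
  obtain ⟨δ, hδ, hδJ⟩ := exists_Icc hJ ht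
  obtain ⟨k1, k2, k3, k4⟩ := chi_facts hP i
  have h1 := (hFU n (chartAt (EE n) (c i)).target _ (chartAt (EE n) (c i)).open_target k1 k2
    (fun y => χ i ((chartAt (EE n) (c i)).symm y)) k3 k4 (t - δ) (t + δ) (by linarith)
    (fun y r => g ((chartAt (EE n) (c i)).symm y) r * sgm (loc (n := n) F (c i) r) y)
    (hg.mono (prod_mono le_rfl hδJ))).2.1
  have h2 : Icc (t - δ) (t + δ) ∈ 𝓝 t := Icc_mem_nhds (by linarith) (by linarith)
  exact (h1.continuousAt h2).continuousWithinAt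

private theorem Ii_deriv (hFU : StFU) {J : Set ℝ} {F : M → ℝ → EE N}
    (hJ : IsOpen J) {c : ℕ → M} {χ : ℕ → M → ℝ} (hP : PU n c χ) {g b : M → ℝ → ℝ} (i : ℕ)
    (hg : ContinuousOn (fun z : EE n × ℝ => g ((chartAt (EE n) (c i)).symm z.1) z.2 *
      sgm (loc (n := n) F (c i) z.2) z.1) ((chartAt (EE n) (c i)).target ×ˢ J))
    (hb : ContinuousOn (fun z : EE n × ℝ => b ((chartAt (EE n) (c i)).symm z.1) z.2 *
      sgm (loc (n := n) F (c i) z.2) z.1) ((chartAt (EE n) (c i)).target ×ˢ J))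
    (hd : ∀ y ∈ (chartAt (EE n) (c i)).target, ∀ r ∈ J,
      HasDerivAt (fun r => g ((chartAt (EE n) (c i)).symm y) r * sgm (loc (n := n) F (c i) r) y)
        (b ((chartAt (EE n) (c i)).symm y) r * sgm (loc (n := n) F (c i) r) y) r)
    {t : ℝ} (ht : t ∈ J) :
    HasDerivAt (Ii (n := n) F c χ i g) (Ii (n := n) F c χ i b t) t := by
  obtain ⟨k1, k2, k3, k4⟩ := chi_facts hP i
  have key : ∀ t₀ t₁ : ℝ, t₀ ≤ t₁ → Icc t₀ t₁ ⊆ J →
      Ii (n := n) F c χ i g t₁ - Ii (n := n) F c χ i g t₀ =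
        ∫ r in t₀..t₁, Ii (n := n) F c χ i b r := by
    intro t₀ t₁ h01 h1
    exact (hFU n (chartAt (EE n) (c i)).target _ (chartAt (EE n) (c i)).open_target k1 k2
      (fun y => χ i ((chartAt (EE n) (c i)).symm y)) k3 k4 t₀ t₁ h01
      (fun y r => b ((chartAt (EE n) (c i)).symm y) r * sgm (loc (n := n) F (c i) r) y)
      (hb.mono (prod_mono le_rfl h1))).2.2
      (fun y r => g ((chartAt (EE n) (c i)).symm y) r * sgm (loc (n := n) F (c i) r) y)
      (fun y hy r hr => hd y hy r (h1 hr))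
      (hg.mono (prod_mono le_rfl h1))
  obtain ⟨δ, hδ, hδJ⟩ := exists_Icc hJ ht
  have hA : ∀ r ∈ Icc (t - δ) (t + δ), Ii (n := n) F c χ i g r = Ii (n := n) F c χ i g t +
      ∫ x in t..r, Ii (n := n) F c χ i b x := by
    intro r hr
    rcases le_total t r with h | h
    · have := key t r h ((Icc_subset_Icc (by linarith) hr.2).trans hδJ)
      linarith
    · have := key r t h ((Icc_subset_Icc hr.1 (by linarith)).trans hδJ)
      rw [intervalIntegral.integral_symm r t]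
      linarith
  have hc := Ii_cont hFU hJ hP i hb
  have h1 : HasDerivAt (fun r => ∫ x in t..r, Ii (n := n) F c χ i b x)
      (Ii (n := n) F c χ i b t) t := by
    refine intervalIntegral.integral_hasDerivAt_right (by simp) ?_ ?_
    · exact ContinuousOn.stronglyMeasurableAtFilter hJ hc t ht
    · exact hc.continuousAt (hJ.mem_nhds ht)
  refine (h1.const_add (Ii (n := n) F c χ i g t)).congr_of_eventuallyEq ?_
  filter_upwards [Icc_mem_nhds (show t - δ < t by linarith) (show t < t + δ by linarith)] with r hr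
  exact hA r hr

/-- the divergence of the field only depends on the germ of `V` -/
private theorem dvc_congr {f V W : EE n → EE N} {x : EE n} (h : V =ᶠ[𝓝 x] W) :
    dvc f (zfd f V) x = dvc f (zfd f W) x := by
  have h1 : zfd f V =ᶠ[𝓝 x] zfd f W := by
    filter_upwards [h.eventuallyEq_nhds] with y hy
    unfold zfd zcv
    rw [hy.fderiv_eq]
  unfold dvc
  rw [h1.fderiv_eq]

/-- the facts in a chart -/
private theorem chart_facts {M : Type} [TopologicalSpace M] [ChartedSpace (EE 2) M]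
    [IsManifold (𝓡 2) ∞ M] (hGLO : StGLO) (hGMA : StGMA) (hI2J : StI2J) (hI3J : StI3J)
    (hSM : Helper35.PI.StSM) (hV1 : StV1) {J : Set ℝ} {F : M → ℝ → EE N}
    (hF : IsImmJ (n := 2) J F) (b : M → ℝ → ℝ)
    (hb : b = fun q t => dvg (n := 2) F (ZFd 2 F (fun q => deriv (fun s => F q s) t) t) q t)
    (p : M) :
    (∀ y ∈ (chartAt (EE 2) p).target, ∀ r ∈ J,
      HasDerivAt (fun r => (‖HH (n := 2) F ((chartAt (EE 2) p).symm y) r‖ ^ 2
          - AA (n := 2) F ((chartAt (EE 2) p).symm y) r) * sgm (loc (n := 2) F p r) y)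
        (b ((chartAt (EE 2) p).symm y) r * sgm (loc (n := 2) F p r) y) r) ∧
    ContinuousOn (fun z : EE 2 × ℝ => b ((chartAt (EE 2) p).symm z.1) z.2 *
      sgm (loc (n := 2) F p z.2) z.1) ((chartAt (EE 2) p).target ×ˢ J) := by
  set f : EE 2 × ℝ → EE N := fun z => F ((chartAt (EE 2) p).symm z.1) z.2 with hf
  have hopen : IsOpen ((chartAt (EE 2) p).target ×ˢ J) :=
    (chartAt (EE 2) p).open_target.prod hF.op
  have hfc : ∀ z ∈ (chartAt (EE 2) p).target ×ˢ J, ContDiffAt ℝ ∞ f z :=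
    fun z hz => (hI2J 2 N M J F hF p z hz).contDiffAt (hopen.mem_nhds hz)
  have hpt : ∀ z ∈ (chartAt (EE 2) p).target ×ˢ J,
      LI (fun y => f (y, z.2)) z.1 ∧
      HH (n := 2) F ((chartAt (EE 2) p).symm z.1) z.2 = mcv (fun y => f (y, z.2)) z.1 ∧
      AA (n := 2) F ((chartAt (EE 2) p).symm z.1) z.2 = nsq (fun y => f (y, z.2)) z.1 := by
    intro z hz
    have h := hI3J 2 N M J F hF p ((chartAt (EE 2) p).symm z.1) z.2 hz.2
      ((chartAt (EE 2) p).map_target hz.1)
    rw [(chartAt (EE 2) p).right_inv hz.1] at h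
    exact ⟨h.1, h.2.1, h.2.2.1⟩
  have hjt : ∀ z ∈ (chartAt (EE 2) p).target ×ˢ J,
      jt f z = deriv (fun s => F ((chartAt (EE 2) p).symm z.1) s) z.2 := by
    intro z hz
    have h1 : HasFDerivAt f (fderiv ℝ f z) (z.1, z.2) :=
      ((hfc z hz).differentiableAt (by simp)).hasFDerivAt
    have h2 : HasDerivAt (fun r : ℝ => (z.1, r)) ((0 : EE 2), (1 : ℝ)) z.2 :=
      (hasDerivAt_const z.2 z.1).prodMk (hasDerivAt_id z.2)
    have h3 : HasDerivAt (fun r : ℝ => f (z.1, r)) (fderiv ℝ f z (0, 1)) z.2 :=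
      h1.comp_hasDerivAt z.2 h2
    exact h3.deriv.symm
  have hbz : ∀ z ∈ (chartAt (EE 2) p).target ×ˢ J,
      b ((chartAt (EE 2) p).symm z.1) z.2 =
        dvc (fun y => f (y, z.2)) (zfd (fun y => f (y, z.2)) (fun y => jt f (y, z.2))) z.1 := by
    intro z hz
    have h := (hGMA 2 N M J F hF z.2 hz.2 _ rfl).2.2 p ((chartAt (EE 2) p).symm z.1)
      ((chartAt (EE 2) p).map_target hz.1)
    rw [(chartAt (EE 2) p).right_inv hz.1] at h
    rw [hb]
    refine h.trans ?_
    refine dvc_congr (f := fun y => f (y, z.2)) ?_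
    filter_upwards [(chartAt (EE 2) p).open_target.mem_nhds hz.1] with y hy
    exact (hjt (y, z.2) ⟨hy, hz.2⟩).symm
  have hder : ∀ z ∈ (chartAt (EE 2) p).target ×ˢ J,
      HasDerivAt (fun s => (‖mcv (fun y => f (y, s)) z.1‖ ^ 2 - nsq (fun y => f (y, s)) z.1)
        * sgm (fun y => f (y, s)) z.1)
        (b ((chartAt (EE 2) p).symm z.1) z.2 * sgm (loc (n := 2) F p z.2) z.1) z.2 := by
    intro z hz
    have h := hGLO N f z (hfc z hz) (hpt z hz).1
    rw [← hbz z hz] at h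
    rw [mul_comm]
    exact h
  refine ⟨?_, ?_⟩
  · intro y hy r hr
    refine (hder (y, r) ⟨hy, hr⟩).congr_of_eventuallyEq ?_
    filter_upwards [hF.op.mem_nhds hr] with s hs
    have h := hpt (y, s) ⟨hy, hs⟩
    change (‖HH (n := 2) F ((chartAt (EE 2) p).symm (y, s).1) (y, s).2‖ ^ 2
          - AA (n := 2) F ((chartAt (EE 2) p).symm (y, s).1) (y, s).2) *
            sgm (loc (n := 2) F p s) y = _
    rw [h.2.1, h.2.2]
    rfl
  · have hcd : ∀ z ∈ (chartAt (EE 2) p).target ×ˢ J, ContDiffAt ℝ ∞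
        (fun z : EE 2 × ℝ => (‖mcv (fun y => f (y, z.2)) z.1‖ ^ 2 - nsq (fun y => f (y, z.2)) z.1)
          * sgm (fun y => f (y, z.2)) z.1) z := by
      intro z hz
      have h := hSM 2 N f z (hfc z hz) (hpt z hz).1
      have h1 := h.2.2.2.2.2.2.2.1
      have h2 := h.2.2.2.2.2.2.2.2.1
      have h3 := (hV1 2 N f z (hfc z hz) (hpt z hz).1).2.1
      exact ((h1.norm_sq ℝ).sub h2).mul h3
    set a : EE 2 × ℝ → ℝ := fun z : EE 2 × ℝ =>
      (‖mcv (fun y => f (y, z.2)) z.1‖ ^ 2 - nsq (fun y => f (y, z.2)) z.1)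
          * sgm (fun y => f (y, z.2)) z.1 with ha
    have hEq : ∀ z ∈ (chartAt (EE 2) p).target ×ˢ J,
        b ((chartAt (EE 2) p).symm z.1) z.2 * sgm (loc (n := 2) F p z.2) z.1 =
          fderiv ℝ a z (0, 1) := by
      intro z hz
      have h1 : HasFDerivAt a (fderiv ℝ a z) (z.1, z.2) :=
        ((hcd z hz).differentiableAt (by simp)).hasFDerivAt
      have h2 : HasDerivAt (fun r : ℝ => (z.1, r)) ((0 : EE 2), (1 : ℝ)) z.2 :=
        (hasDerivAt_const z.2 z.1).prodMk (hasDerivAt_id z.2)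
      have h3 : HasDerivAt (fun r : ℝ => a (z.1, r)) (fderiv ℝ a z (0, 1)) z.2 :=
        h1.comp_hasDerivAt z.2 h2
      exact (hder z hz).unique h3
    have hco : ContinuousOn (fun z => fderiv ℝ a z (0, 1)) ((chartAt (EE 2) p).target ×ˢ J) := by
      intro z hz
      have h1 : ContDiffAt ℝ 0 (fderiv ℝ a) z :=
        (hcd z hz).fderiv_right (m := 0) (by simp)
      exact (h1.continuousAt.clm_apply continuousAt_const).continuousWithinAt
    exact hco.congr hEq

/-- Module GKD. -/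
theorem hGKD (hGLO : StGLO) (hGMA : StGMA) (hMUJ : StMUJ) (hFVJ : StFVJ) (hI2J : StI2J)
    (hI3J : StI3J) (hI4J : StI4J) (hFU : StFU) (hSGJ : StSGJ) (hSM : Helper35.PI.StSM) (hV1 : StV1) :
    StGKD := by
  intro N M _ _ _ _ _ _ _ J F c χ hS t ht
  have hF := hS.mcf
  have hP := hS.pu
  obtain ⟨s, -, hmu⟩ := hMUJ 2 N M J F c χ hS
  set g : M → ℝ → ℝ := fun q t => ‖HH (n := 2) F q t‖ ^ 2 - AA (n := 2) F q t with hg
  set b : M → ℝ → ℝ := fun q t =>
    dvg (n := 2) F (ZFd 2 F (fun q => deriv (fun s => F q s) t) t) q t with hb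
  have hgc : CSTJ J g := by
    have h := hI4J 2 N M J F hF
    exact ContinuousOn.sub (h.2.1.norm.pow 2) h.2.2.1
  have hint : ∀ r ∈ J, ∫ q, g q r ∂muM 2 F c χ r = ∑ i ∈ s, Ii (n := 2) F c χ i g r := by
    intro r hr
    exact ((hmu r hr).2.2 (fun q => g q r) (cst_slice hgc hr)).2
  have hsum : HasDerivAt (fun r => ∑ i ∈ s, Ii (n := 2) F c χ i g r)
      (∑ i ∈ s, Ii (n := 2) F c χ i b t) t := by
    refine HasDerivAt.fun_sum fun i _ => ?_
    have h := chart_facts hGLO hGMA hI2J hI3J hSM hV1 hF b hb (c i)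
    exact Ii_deriv hFU hF.op hP i (cst_chart hSGJ hF hgc (c i)) h.2 h.1 ht
  obtain ⟨hX1, hX2, -⟩ := hGMA 2 N M J F hF t ht _ rfl
  obtain ⟨hbc, hb0⟩ := hFVJ 2 N M J F c χ hS t ht _ hX1
  have hb1 : ∑ i ∈ s, Ii (n := 2) F c χ i b t = 0 := by
    have h1 := ((hmu t ht).2.2 (fun q => b q t) hbc).2
    have h2 : ∫ q, b q t ∂muM 2 F c χ t = 0 := by
      rw [← hb0]
      refine integral_congr_ae (Eventually.of_forall fun q => ?_)
      beta_reduce
      rw [hX2 q, add_zero]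
    rw [h2] at h1
    exact h1.symm
  rw [hb1] at hsum
  refine hsum.congr_of_eventuallyEq ?_
  filter_upwards [hF.op.mem_nhds ht] with r hr
  exact hint r hr

end Helper89.MS
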