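import Pool.Agent.Helper35.MS.StD

/-!
# Project MS, module SPH : jets of a graph in the shrinking sphere
-/

set_option autoImplicit false

namespace Pool.Agent.Helper89.MS

open Helper35.MS Helper35.PI Helper35.PI2 Helper32.CL
open scoped ContDiff Manifold Topology ENNReal BigOperators
open MeasureTheory Set Filter

section

variable {n N : ℕ}

private theorem jg_inner {φ ψ : EE n × ℝ → EE N} {z : EE n × ℝ} (hφ : DifferentiableAt ℝ φ z)
    (hψ : DifferentiableAt ℝ ψ z) (k : Fin n) :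
    jg (fun z' => (inner ℝ (φ z') (ψ z') : ℝ)) z k =
      inner ℝ (φ z) (jg ψ z k) + inner ℝ (jg φ z k) (ψ z) := by
  unfold jg
  exact fderiv_inner_apply ℝ hφ hψ _

private theorem jg_time (z : EE n × ℝ) (k : Fin n) :
    jg (fun z' : EE n × ℝ => 1 - 4 * z'.2) z k = 0 := by
  unfold jg
  have h1 : HasFDerivAt (fun z' : EE n × ℝ => 1 - 4 * z'.2)
      (-((4 : ℝ) • ContinuousLinearMap.snd ℝ (EE n) ℝ)) z :=
    ((hasFDerivAt_snd (𝕜 := ℝ) (p := z)).const_mul 4).const_sub 1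
  rw [h1.fderiv]
  simp

private theorem jg_zero (z : EE n × ℝ) (k : Fin n) :
    jg (fun _ : EE n × ℝ => (0 : ℝ)) z k = 0 := by
  unfold jg
  simp

private theorem jg_congr {V : Type*} [NormedAddCommGroup V] [NormedSpace ℝ V]
    {φ ψ : EE n × ℝ → V} {z : EE n × ℝ} (h : φ =ᶠ[𝓝 z] ψ) (k : Fin n) :
    jg φ z k = jg ψ z k := by
  unfold jg
  rw [h.fderiv_eq]

end

theorem hSPH (hG1 : StG1) (hG2 : StG2) (hSM : Helper35.PI.StSM) : StSPH := by
  intro n N x₀ L u t₀ hu hsph A T hA hT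
  obtain ⟨f, hfdef⟩ : ∃ f : EE n × ℝ → EE N, f = fun z => grf x₀ L u z.2 z.1 := ⟨_, rfl⟩
  have hf : ContDiffAt ℝ ∞ f ((0 : EE n), t₀) := by
    rw [hfdef]
    have h1 : ContDiffAt ℝ ∞ (fun z : EE n × ℝ => x₀ + L z.1 + u z) ((0 : EE n), t₀) :=
      (contDiffAt_const.add (L.toContinuousLinearMap.contDiff.contDiffAt.comp ((0 : EE n), t₀)
        contDiffAt_fst)).add hu.smooth
    exact h1
  obtain ⟨-, -, g3, g4⟩ := hG1 n N x₀ L u t₀ hu
  have hG2' := hG2 n N x₀ L u t₀ hu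
  have hLI : LI (fun y => f (y, ((0 : EE n), t₀).2)) ((0 : EE n), t₀).1 := by
    rw [hfdef]
    exact (hG2'.self_of_nhds).2.2.2.2
  obtain ⟨s1, s2, -, s3, -⟩ := hSM n N f ((0 : EE n), t₀) hf hLI
  have hf0 : f ((0 : EE n), t₀) = x₀ := by
    rw [hfdef]
    simp [grf, hu.u0]
  have v1 : ∀ᶠ z in 𝓝 ((0 : EE n), t₀), ∀ i, jg f z i = L (ee i) + jg u z i := by
    filter_upwards [hG2', s1] with z h1 h2 i
    rw [← h2.2.2.1 i, hfdef]
    exact h1.1 i
  have v2 : ∀ᶠ z in 𝓝 ((0 : EE n), t₀), ∀ i j, jgg f z i j = jgg u z i j := by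
    filter_upwards [hG2', s1] with z h1 h2 i j
    rw [← h2.2.2.2.1 i j, hfdef]
    exact h1.2.1 i j
  have v1' : ∀ i, jg f ((0 : EE n), t₀) i = L (ee i) := by
    intro i
    rw [v1.self_of_nhds i, hu.du0 i, add_zero]
  have v2' : ∀ i j, jgg f ((0 : EE n), t₀) i j = A i j := by
    intro i j
    rw [v2.self_of_nhds i j, hA]
  have v3 : ∀ i j k, jg (fun z' => jgg f z' j k) ((0 : EE n), t₀) i = T i j k := by
    intro i j k
    rw [hT]
    exact jg_congr (v2.mono fun z hz => hz j k) i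
  have d0 : ∀ᶠ z in 𝓝 ((0 : EE n), t₀), DifferentiableAt ℝ f z :=
    s1.mono fun z hz => hz.2.1.differentiableAt (by norm_num)
  have d1 : ∀ᶠ z in 𝓝 ((0 : EE n), t₀), ∀ i, DifferentiableAt ℝ (fun z => jg f z i) z := by
    rw [Filter.eventually_all]
    intro i
    have h1 : ContDiffAt ℝ 1 (fun z => jg f z i) ((0 : EE n), t₀) :=
      (s2 i).of_le (by exact_mod_cast le_top)
    have h2 := h1.eventually (by simp)
    exact h2.mono fun z hz => hz.differentiableAt (by norm_num)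
  have d2 : ∀ i j, DifferentiableAt ℝ (fun z => jgg f z i j) ((0 : EE n), t₀) := fun i j =>
    (s3 i j).differentiableAt (by simp)
  -- zeroth order
  have e0 : (fun z => (inner ℝ (f z) (f z) : ℝ)) =ᶠ[𝓝 ((0 : EE n), t₀)]
      fun z => 1 - 4 * z.2 := by
    filter_upwards [hsph] with z hz
    rw [real_inner_self_eq_norm_sq, hfdef]
    exact hz
  -- first order
  have e1 : ∀ᶠ z in 𝓝 ((0 : EE n), t₀), ∀ j, (inner ℝ (f z) (jg f z j) : ℝ) = 0 := by
    filter_upwards [e0.eventually_nhds, d0] with z hz hd j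
    have h1 := jg_congr hz j
    rw [jg_inner hd hd, jg_time, real_inner_comm (f z) (jg f z j)] at h1
    linarith
  -- second order
  have e2 : ∀ᶠ z in 𝓝 ((0 : EE n), t₀), ∀ i j,
      (inner ℝ (f z) (jgg f z i j) : ℝ) + inner ℝ (jg f z i) (jg f z j) = 0 := by
    filter_upwards [e1.eventually_nhds, d0, d1] with z hz hd hd1 i j
    have h0 : (fun z => (inner ℝ (f z) (jg f z j) : ℝ)) =ᶠ[𝓝 z] fun _ => (0 : ℝ) :=
      hz.mono fun z' hz' => hz' j
    have h1 := jg_congr h0 i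
    rw [jg_inner hd (hd1 j), jg_zero] at h1
    exact h1
  -- third order
  have e3 : ∀ i j k, ((inner ℝ (f ((0 : EE n), t₀)) (T k i j) : ℝ) +
      inner ℝ (jg f ((0 : EE n), t₀) k) (A i j)) +
      ((inner ℝ (jg f ((0 : EE n), t₀) i) (A k j) : ℝ) +
        inner ℝ (A k i) (jg f ((0 : EE n), t₀) j)) = 0 := by
    intro i j k
    have h0 : (fun z => (inner ℝ (f z) (jgg f z i j) : ℝ) + inner ℝ (jg f z i) (jg f z j))
        =ᶠ[𝓝 ((0 : EE n), t₀)] fun _ => (0 : ℝ) := e2.mono fun z' hz' => hz' i j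
    have h1 := jg_congr h0 k
    have hd0 := d0.self_of_nhds
    have hd1 := d1.self_of_nhds
    have h2 : jg (fun z => (inner ℝ (f z) (jgg f z i j) : ℝ) + inner ℝ (jg f z i) (jg f z j))
        ((0 : EE n), t₀) k = jg (fun z => (inner ℝ (f z) (jgg f z i j) : ℝ)) ((0 : EE n), t₀) k +
          jg (fun z => (inner ℝ (jg f z i) (jg f z j) : ℝ)) ((0 : EE n), t₀) k := by
      unfold jg
      have h3 := fderiv_add (hd0.inner ℝ (d2 i j)) ((hd1 i).inner ℝ (hd1 j))
      exact congrArg (fun Λ => Λ (ee k, (0 : ℝ))) h3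
    rw [h2, jg_inner hd0 (d2 i j), jg_inner (hd1 i) (hd1 j), jg_zero, v3] at h1
    have h4 : ∀ a b, jg (fun z => jg f z b) ((0 : EE n), t₀) a = A a b := fun a b => v2' a b
    rw [h4, h4, v2'] at h1
    exact h1
  refine ⟨?_, ?_, ?_⟩
  · have h1 := hsph.self_of_nhds
    have h2 : grf x₀ L u t₀ 0 = x₀ := by
      have h3 := hf0
      rw [hfdef] at h3
      exact h3
    simpa only [h2] using h1
  · intro i j
    have h1 := e2.self_of_nhds i j
    rw [hf0, v2', v1', v1', L.inner_map_map, real_inner_comm] at h1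
    have h2 : (inner ℝ (ee i : EE n) (ee j) : ℝ) = if i = j then 1 else 0 := by
      unfold ee
      rw [EuclideanSpace.inner_single_left]
      simp
    rw [h2] at h1
    split_ifs at h1 ⊢ with hij
    · linarith
    · linarith
  · intro i j k
    have h1 := e3 j k i
    rw [hf0, v1', v1', v1'] at h1
    have h2 : ∀ a b (v : EE n), (inner ℝ (A a b) (L v) : ℝ) = 0 := by
      intro a b v
      rw [hA]
      exact g3 a b v
    rw [real_inner_comm (A j k) (L (ee i)), h2, real_inner_comm (A i k) (L (ee j)), h2, h2,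
      real_inner_comm] at h1
    linarith

end Pool.Agent.Helper89.MS
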